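import Mathlib

/-!
# A strongly indecomposable torsion-free abelian group of rank six whose endomorphism ring is
a non-commutative centrally essential ring
-/

open scoped TensorProduct

namespace Pool.Agent.Results.MP_7bf690_al.RankSix

/-- A ring is centrally essential if every nonzero element has a nonzero central multiple by a
nonzero central element. -/
def CentrallyEssential (R : Type*) [Ring R] : Prop :=
  ∀ a : R, a ≠ 0 → ∃ c d : R, c ∈ Subring.center R ∧ d ∈ Subring.center R ∧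
    c ≠ 0 ∧ d ≠ 0 ∧ a * c = d

/-- `A` is strongly indecomposable: `A ≠ 0`, and whenever `n A` is contained in a direct sum
`B ⊕ C` of subgroups with `n` a positive integer, `B` or `C` is zero. -/
def StronglyIndecomposable (A : Type*) [AddCommGroup A] : Prop :=
  Nontrivial A ∧ ∀ (B C : AddSubgroup A) (n : ℕ), 0 < n → B ⊓ C = ⊥ →
    (∀ a : A, n • a ∈ B ⊔ C) → B = ⊥ ∨ C = ⊥

/-- The underlying rational vector space. -/
abbrev V := Fin 6 → ℚ

/-- Multiplication of the six-dimensional algebra with basis `1, x, y, c, u = cx, v = cy`. -/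
def mul (a b : V) : V :=
  ![a 0 * b 0, a 0 * b 1 + a 1 * b 0, a 0 * b 2 + a 2 * b 0, a 0 * b 3 + a 3 * b 0,
    a 0 * b 4 + a 4 * b 0 + a 1 * b 3 + a 3 * b 1 - a 2 * b 1,
    a 0 * b 5 + a 5 * b 0 + a 2 * b 3 + a 3 * b 2]

lemma mul_assoc' (a b c : V) : mul (mul a b) c = mul a (mul b c) := by
  ext i; fin_cases i <;> simp [mul] <;> ring

lemma mul_add' (a b c : V) : mul a (b + c) = mul a b + mul a c := by
  ext i; fin_cases i <;> simp [mul] <;> ring

lemma add_mul' (a b c : V) : mul (a + b) c = mul a c + mul b c := by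
  ext i; fin_cases i <;> simp [mul] <;> ring

lemma mul_smul' (t : ℚ) (a b : V) : mul a (t • b) = t • mul a b := by
  ext i; fin_cases i <;> simp [mul] <;> ring

lemma smul_mul' (t : ℚ) (a b : V) : mul (t • a) b = t • mul a b := by
  ext i; fin_cases i <;> simp [mul] <;> ring

/-- basis vector -/
def e (i : Fin 6) : V := Pi.single i 1

lemma mul_one' (a : V) : mul a (e 0) = a := by
  ext i; fin_cases i <;> simp [mul, e]

lemma one_mul' (a : V) : mul (e 0) a = a := by
  ext i; fin_cases i <;> simp [mul, e]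

/-- the generators of the radical -/
def J : Fin 3 → V := ![e 1, e 2, e 3]

lemma J_sq (i : Fin 3) : mul (J i) (J i) = 0 := by
  ext k; fin_cases i <;> fin_cases k <;> simp [mul, e, J]

/-- the class of a prime -/
def cls (p : ℕ) : Fin 3 := ⟨Nat.count Nat.Prime p % 3, Nat.mod_lt _ (by norm_num)⟩

lemma cls_infinite (i : Fin 3) : {p : ℕ | p.Prime ∧ cls p = i}.Infinite := by
  have hinj : Function.Injective (fun m : ℕ => Nat.nth Nat.Prime (3 * m + i)) := by
    intro m n h
    have := (Nat.nth_strictMono Nat.infinite_setOfPred_prime).injective h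
    omega
  refine (Set.infinite_range_of_injective hinj).mono ?_
  rintro p ⟨m, rfl⟩
  refine ⟨Nat.nth_mem_of_infinite Nat.infinite_setOfPred_prime _, ?_⟩
  apply Fin.ext
  have h1 : Nat.count Nat.Prime (Nat.nth Nat.Prime (3 * m + i)) = 3 * m + i :=
    Nat.count_nth_of_infinite Nat.infinite_setOfPred_prime _
  simp only [cls, h1]
  omega

/-- `p`-integrality of a rational number. -/
def PI (p : ℕ) (x : ℚ) : Prop := padicNorm p x ≤ 1

lemma PI.add {p : ℕ} [Fact p.Prime] {x y : ℚ} (hx : PI p x) (hy : PI p y) : PI p (x + y) :=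
  padicNorm.nonarchimedean.trans (max_le hx hy)

lemma PI.neg {p : ℕ} [Fact p.Prime] {x : ℚ} (hx : PI p x) : PI p (-x) := by
  unfold PI at *; rwa [padicNorm.neg]

lemma PI.sub {p : ℕ} [Fact p.Prime] {x y : ℚ} (hx : PI p x) (hy : PI p y) : PI p (x - y) := by
  rw [sub_eq_add_neg]; exact hx.add hy.neg

lemma PI.mul {p : ℕ} [Fact p.Prime] {x y : ℚ} (hx : PI p x) (hy : PI p y) : PI p (x * y) := by
  unfold PI at *
  rw [padicNorm.mul]
  have := padicNorm.nonneg (p := p) x
  have := padicNorm.nonneg (p := p) y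
  nlinarith

lemma PI.int {p : ℕ} [Fact p.Prime] (m : ℤ) : PI p (m : ℚ) := padicNorm.of_int m

lemma PI.zero {p : ℕ} : PI p 0 := by
  unfold PI; simp


lemma finite_not_PI (x : ℚ) : {p : ℕ | p.Prime ∧ ¬ PI p x}.Finite := by
  refine (Set.finite_Iic x.den).subset ?_
  rintro p ⟨hp, hx⟩
  have : Fact p.Prime := ⟨hp⟩
  by_contra hlt
  apply hx
  have hnd : ¬ p ∣ x.den := fun h => hlt (Nat.le_of_dvd x.den_pos h)
  have h1 : padicNorm p (x.den : ℚ) = 1 := padicNorm.nat_eq_one_iff x.den |>.2 hnd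
  have h2 : padicNorm p (x.num : ℚ) ≤ 1 := padicNorm.of_int x.num
  have h3 : x * x.den = x.num := Rat.mul_den_eq_num x
  have h4 : padicNorm p x * padicNorm p (x.den : ℚ) = padicNorm p (x.num : ℚ) := by
    rw [← padicNorm.mul, h3]
  rw [h1, mul_one] at h4
  unfold PI
  rw [h4]; exact h2

lemma finite_PI_div {x : ℚ} (hx : x ≠ 0) : {p : ℕ | p.Prime ∧ PI p (x / p)}.Finite := by
  refine (Set.finite_Iic x.num.natAbs).subset ?_
  rintro p ⟨hp, h⟩
  have : Fact p.Prime := ⟨hp⟩
  have hp0 : (p : ℚ) ≠ 0 := by exact_mod_cast hp.ne_zero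
  have hp1 : (1 : ℚ) < p := by exact_mod_cast hp.one_lt
  have h1 : padicNorm p x = padicNorm p (x / p) * padicNorm p (p : ℚ) := by
    rw [← padicNorm.mul, div_mul_cancel₀ _ hp0]
  have h2 : padicNorm p (p : ℚ) = (p : ℚ)⁻¹ := padicNorm.padicNorm_p_of_prime
  have h3 : padicNorm p x < 1 := by
    rw [h1, h2]
    have h5 : padicNorm p (x / p) ≤ 1 := h
    have h6 : (0 : ℚ) < (p : ℚ)⁻¹ := by positivity
    have h7 : (p : ℚ)⁻¹ < 1 := inv_lt_one_of_one_lt₀ hp1
    nlinarith
  have h4 : padicNorm p (x.num : ℚ) < 1 := by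
    have h5 : padicNorm p (x.num : ℚ) = padicNorm p x * padicNorm p (x.den : ℚ) := by
      rw [← padicNorm.mul, Rat.mul_den_eq_num]
    have h6 : padicNorm p (x.den : ℚ) ≤ 1 := by
      have := padicNorm.of_int (p := p) (x.den : ℤ)
      simpa using this
    have h7 := padicNorm.nonneg (p := p) x
    rw [h5]
    nlinarith
  have h5 : (p : ℤ) ∣ x.num := (padicNorm.int_lt_one_iff x.num).1 h4
  have h6 : p ∣ x.num.natAbs := Int.natCast_dvd.1 h5
  exact Nat.le_of_dvd (Int.natAbs_pos.2 (Rat.num_ne_zero.2 hx)) h6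

lemma key {α β γ : ℚ} {S : Set ℕ} (hS : S.Infinite) (hp : ∀ p ∈ S, p.Prime)
    (h : ∀ p ∈ S, PI p (α + β / p + γ / p ^ 2)) : β = 0 := by
  have hγ : γ = 0 := by
    by_contra hγ
    have hfin := ((finite_not_PI α).union (finite_not_PI β)).union (finite_PI_div hγ)
    obtain ⟨p, hpS, hpn⟩ := hS.exists_notMem_finite hfin
    have hpp := hp p hpS
    have : Fact p.Prime := ⟨hpp⟩
    have hp0 : (p : ℚ) ≠ 0 := by exact_mod_cast hpp.ne_zero
    simp only [Set.mem_union, Set.mem_ofPred_eq, not_or, not_and, not_not] at hpn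
    obtain ⟨⟨h1, h2⟩, h3⟩ := hpn
    apply h3 hpp
    have h4 : γ / p = (p : ℤ) * (α + β / p + γ / p ^ 2) - (p : ℤ) * α - β := by
      push_cast
      field_simp
      ring
    rw [h4]
    exact (((PI.int _).mul (h p hpS)).sub ((PI.int _).mul (h1 hpp))).sub (h2 hpp)
  by_contra hβ
  have hfin := (finite_not_PI α).union (finite_PI_div hβ)
  obtain ⟨p, hpS, hpn⟩ := hS.exists_notMem_finite hfin
  have hpp := hp p hpS
  have : Fact p.Prime := ⟨hpp⟩
  simp only [Set.mem_union, Set.mem_ofPred_eq, not_or, not_and, not_not] at hpn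
  obtain ⟨h1, h3⟩ := hpn
  apply h3 hpp
  have h4 : β / p = (α + β / p + γ / p ^ 2) - α := by
    rw [hγ]; ring
  rw [h4]
  exact (h p hpS).sub (h1 hpp)

lemma PI_mulV {p : ℕ} [Fact p.Prime] {a b : V} (ha : ∀ i, PI p (a i)) (hb : ∀ i, PI p (b i))
    (i : Fin 6) : PI p (mul a b i) := by
  fin_cases i
  · exact (ha 0).mul (hb 0)
  · exact ((ha 0).mul (hb 1)).add ((ha 1).mul (hb 0))
  · exact ((ha 0).mul (hb 2)).add ((ha 2).mul (hb 0))
  · exact ((ha 0).mul (hb 3)).add ((ha 3).mul (hb 0))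
  · exact (((((ha 0).mul (hb 4)).add ((ha 4).mul (hb 0))).add ((ha 1).mul (hb 3))).add
      ((ha 3).mul (hb 1))).sub ((ha 2).mul (hb 1))
  · exact ((((ha 0).mul (hb 5)).add ((ha 5).mul (hb 0))).add ((ha 2).mul (hb 3))).add
      ((ha 3).mul (hb 2))

lemma PI_e {p : ℕ} [Fact p.Prime] (k i : Fin 6) : PI p (e k i) := by
  unfold e
  rw [Pi.single_apply]
  split_ifs
  · exact_mod_cast PI.int (p := p) 1
  · exact PI.zero

lemma PI_J {p : ℕ} [Fact p.Prime] (k : Fin 3) (i : Fin 6) : PI p (J k i) := by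
  fin_cases k
  · exact PI_e 1 i
  · exact PI_e 2 i
  · exact PI_e 3 i

/-- The group of rank six. -/
def G : AddSubgroup V where
  carrier := {a | ∀ p : ℕ, p.Prime → ∀ i, PI p (((p : ℚ) • a - mul a (J (cls p))) i)}
  zero_mem' := by
    intro p hp i
    have : ((p : ℚ) • (0 : V) - mul 0 (J (cls p))) = 0 := by
      ext i; fin_cases i <;> simp [mul]
    rw [this]; exact PI.zero
  add_mem' := by
    intro a b ha hb p hp i
    have : Fact p.Prime := ⟨hp⟩
    have : ((p : ℚ) • (a + b) - mul (a + b) (J (cls p))) =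
      ((p : ℚ) • a - mul a (J (cls p))) + ((p : ℚ) • b - mul b (J (cls p))) := by
      rw [add_mul', smul_add]; abel
    rw [this]; exact (ha p hp i).add (hb p hp i)
  neg_mem' := by
    intro a ha p hp i
    have : Fact p.Prime := ⟨hp⟩
    have : ((p : ℚ) • (-a) - mul (-a) (J (cls p))) =
      -((p : ℚ) • a - mul a (J (cls p))) := by
      have : mul (-a) (J (cls p)) = - mul a (J (cls p)) := by
        have := smul_mul' (-1) a (J (cls p)); simpa using this
      rw [this, smul_neg]; abel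
    rw [this]; exact (ha p hp i).neg

lemma mem_G {a : V} : a ∈ G ↔ ∀ p : ℕ, p.Prime → ∀ i, PI p (((p : ℚ) • a - mul a (J (cls p))) i) :=
  Iff.rfl

lemma PI_of_all {p : ℕ} [Fact p.Prime] {a : V} (ha : ∀ i, PI p (a i)) (i : Fin 6) :
    PI p (((p : ℚ) • a - mul a (J (cls p))) i) := by
  have h1 : PI p ((p : ℚ) * a i) := by
    have := (PI.int (p := p) (p : ℤ)).mul (ha i)
    exact_mod_cast this
  exact h1.sub (PI_mulV ha (PI_J _) i)

lemma e_mem (k : Fin 6) : e k ∈ G := by
  intro p hp i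
  have : Fact p.Prime := ⟨hp⟩
  exact PI_of_all (PI_e k) i

/-- the special elements `(r + r j / p) / p`. -/
lemma special_mem {p : ℕ} (hp : p.Prime) (k : Fin 6) :
    ((p : ℚ)⁻¹ • (e k + (p : ℚ)⁻¹ • mul (e k) (J (cls p)))) ∈ G := by
  intro q hq i
  have : Fact q.Prime := ⟨hq⟩
  have hp0 : (p : ℚ) ≠ 0 := by exact_mod_cast hp.ne_zero
  by_cases hpq : q = p
  · subst hpq
    have : (q : ℚ) • ((q : ℚ)⁻¹ • (e k + (q : ℚ)⁻¹ • mul (e k) (J (cls q)))) -
        mul ((q : ℚ)⁻¹ • (e k + (q : ℚ)⁻¹ • mul (e k) (J (cls q)))) (J (cls q)) = e k := by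
      rw [smul_smul, mul_inv_cancel₀ hp0, one_smul, smul_mul', add_mul', smul_mul', mul_assoc',
        J_sq]
      have : mul (e k) 0 = 0 := by
        ext i; fin_cases i <;> simp [mul]
      rw [this]; simp
    rw [this]
    exact PI_e k i
  · have hinv : PI q ((p : ℚ)⁻¹) := by
      have : Fact p.Prime := ⟨hp⟩
      have h1 : padicNorm q (p : ℚ) = 1 := padicNorm.padicNorm_of_prime_of_ne hpq
      unfold PI
      have h2 : padicNorm q ((p : ℚ)⁻¹) * padicNorm q (p : ℚ) = 1 := by
        rw [← padicNorm.mul, inv_mul_cancel₀ hp0]; simp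
      rw [h1, mul_one] at h2
      exact h2.le
    apply PI_of_all
    intro i
    have h3 := PI_mulV (p := q) (PI_e k) (PI_J (cls p)) i
    exact hinv.mul ((PI_e k i).add (hinv.mul h3))


/-- common denominator -/
lemma exists_den (a : V) : ∃ N : ℕ, N ≠ 0 ∧ ∃ m : Fin 6 → ℤ, ∀ i, (N : ℚ) * a i = m i := by
  refine ⟨∏ i, (a i).den, Finset.prod_ne_zero_iff.2 fun i _ => (a i).den_nz, ?_⟩
  have h : ∀ i, ∃ m : ℤ, ((∏ i, (a i).den : ℕ) : ℚ) * a i = m := by
    intro i
    obtain ⟨k, hk⟩ := Finset.dvd_prod_of_mem (fun i => (a i).den) (Finset.mem_univ i)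
    refine ⟨k * (a i).num, ?_⟩
    rw [hk]
    push_cast
    have := Rat.mul_den_eq_num (a i)
    rw [← this]; ring
  choose m hm using h
  exact ⟨m, hm⟩

lemma sum_e (a : V) : a = ∑ i, a i • e i := by
  ext k
  simp [e, Finset.sum_apply, Pi.single_apply]

/-- values of an endomorphism on the basis -/
def val (φ : G →+ G) (i : Fin 6) : V := (φ ⟨e i, e_mem i⟩ : V)

/-- rational linear extension -/
def ext (φ : G →+ G) (a : V) : V := ∑ i, a i • val φ i

lemma ext_smul (φ : G →+ G) (t : ℚ) (a : V) : ext φ (t • a) = t • ext φ a := by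
  simp [ext, Finset.smul_sum, smul_smul]

lemma ext_add (φ : G →+ G) (a b : V) : ext φ (a + b) = ext φ a + ext φ b := by
  simp [ext, add_smul, Finset.sum_add_distrib]

lemma ext_e (φ : G →+ G) (i : Fin 6) : ext φ (e i) = val φ i := by
  simp [ext, e, Pi.single_apply]

lemma ext_eq (φ : G →+ G) (a : G) : (φ a : V) = ext φ a := by
  obtain ⟨N, hN, m, hm⟩ := exists_den (a : V)
  have h1 : N • a = ∑ i, m i • (⟨e i, e_mem i⟩ : G) := by
    apply Subtype.ext
    rw [AddSubgroup.coe_nsmul, AddSubgroup.val_finsetSum]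
    rw [sum_e (a : V), Finset.smul_sum]
    refine Finset.sum_congr rfl fun i _ => ?_
    rw [AddSubgroup.coe_zsmul]
    ext k
    simp only [Pi.smul_apply, smul_eq_mul, nsmul_eq_mul, zsmul_eq_mul]
    rw [← mul_assoc, hm i]
  have h2 : N • φ a = ∑ i, m i • φ (⟨e i, e_mem i⟩ : G) := by
    rw [← map_nsmul, h1, map_sum]
    refine Finset.sum_congr rfl fun i _ => ?_
    rw [map_zsmul]
  have h3 : (N : ℚ) • (φ a : V) = (N : ℚ) • ext φ a := by
    have h4 : ((N • φ a : G) : V) = ((∑ i, m i • φ (⟨e i, e_mem i⟩ : G) : G) : V) := by rw [h2]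
    rw [AddSubgroup.coe_nsmul, AddSubgroup.val_finsetSum] at h4
    rw [Nat.cast_smul_eq_nsmul, h4, ext, Finset.smul_sum]
    refine Finset.sum_congr rfl fun i _ => ?_
    rw [AddSubgroup.coe_zsmul, smul_smul, hm i, Int.cast_smul_eq_zsmul]
    rfl
  have hN' : (N : ℚ) ≠ 0 := by exact_mod_cast hN
  exact smul_right_injective V hN' h3

lemma ext_mul_J (φ : G →+ G) (k : Fin 6) (j : Fin 3) :
    ext φ (mul (e k) (J j)) = mul (ext φ (e k)) (J j) := by
  ext n
  have h := key (α := ext φ (e k) n)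
    (β := ext φ (mul (e k) (J j)) n - mul (ext φ (e k)) (J j) n)
    (γ := -(mul (ext φ (mul (e k) (J j))) (J j) n))
    (cls_infinite j) (fun p hp => hp.1) ?_
  · linarith
  · rintro p ⟨hp, rfl⟩
    have hp0 : (p : ℚ) ≠ 0 := by exact_mod_cast hp.ne_zero
    have h1 := (φ ⟨_, special_mem hp k⟩).2 p hp n
    rw [ext_eq] at h1
    convert h1 using 1
    simp only [ext_smul, ext_add, smul_mul', add_mul']
    simp only [Pi.sub_apply, Pi.smul_apply, Pi.add_apply, smul_eq_mul]
    field_simp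
    ring

lemma ext_eq_mul (φ : G →+ G) (a : V) : ext φ a = mul (ext φ (e 0)) a := by
  have hJ0 : J 0 = e 1 := rfl
  have hJ1 : J 1 = e 2 := rfl
  have hJ2 : J 2 = e 3 := rfl
  have h0 : ext φ (e 0) = mul (ext φ (e 0)) (e 0) := (mul_one' _).symm
  have h1 : ext φ (e 1) = mul (ext φ (e 0)) (e 1) := by
    have := ext_mul_J φ 0 0
    rwa [one_mul', hJ0] at this
  have h2 : ext φ (e 2) = mul (ext φ (e 0)) (e 2) := by
    have := ext_mul_J φ 0 1
    rwa [one_mul', hJ1] at this
  have h3 : ext φ (e 3) = mul (ext φ (e 0)) (e 3) := by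
    have := ext_mul_J φ 0 2
    rwa [one_mul', hJ2] at this
  have e31 : mul (e 3) (e 1) = e 4 := by
    ext i; fin_cases i <;> simp [mul, e]
  have e32 : mul (e 3) (e 2) = e 5 := by
    ext i; fin_cases i <;> simp [mul, e]
  have h4 : ext φ (e 4) = mul (ext φ (e 0)) (e 4) := by
    have := ext_mul_J φ 3 0
    rwa [hJ0, e31, h3, mul_assoc', e31] at this
  have h5 : ext φ (e 5) = mul (ext φ (e 0)) (e 5) := by
    have := ext_mul_J φ 3 1
    rwa [hJ1, e32, h3, mul_assoc', e32] at this
  have hall : ∀ i, ext φ (e i) = mul (ext φ (e 0)) (e i) := by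
    intro i
    fin_cases i
    · exact h0
    · exact h1
    · exact h2
    · exact h3
    · exact h4
    · exact h5
  generalize ext φ (e 0) = w at hall
  unfold ext
  have h6 : ∀ i, val φ i = mul w (e i) := fun i => by rw [← ext_e, hall]
  simp only [h6, ← mul_smul']
  have hsum : ∀ (s : Finset (Fin 6)) (f : Fin 6 → V), ∑ i ∈ s, mul w (f i) = mul w (∑ i ∈ s, f i) := by
    intro s f
    classical
    induction s using Finset.induction_on with
    | empty => ext i; fin_cases i <;> simp [mul]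
    | insert i s hi ih => rw [Finset.sum_insert hi, Finset.sum_insert hi, ih, mul_add']
  rw [hsum, ← sum_e a]

/-- Every endomorphism is left multiplication by its value at `1`. -/
lemma apply_eq (φ : G →+ G) (a : G) : (φ a : V) = mul (val φ 0) a := by
  rw [ext_eq, ext_eq_mul, ext_e]

lemma eq_of_val {φ ψ : G →+ G} (h : val φ 0 = val ψ 0) : φ = ψ := by
  ext a
  rw [apply_eq, apply_eq, h]

/-- left multiplication by an integral element -/
def L (r : V) (hr : ∀ p : ℕ, p.Prime → ∀ i, PI p (r i)) : G →+ G where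
  toFun a := ⟨mul r a, by
    intro p hp i
    have : Fact p.Prime := ⟨hp⟩
    have h1 : (p : ℚ) • mul r (a : V) - mul (mul r a) (J (cls p)) =
        mul r ((p : ℚ) • (a : V) - mul a (J (cls p))) := by
      have h2 : mul r ((p : ℚ) • (a : V) - mul a (J (cls p))) =
          mul r ((p : ℚ) • (a : V)) - mul r (mul a (J (cls p))) := by
        rw [sub_eq_add_neg, mul_add', sub_eq_add_neg]
        congr 1
        have := mul_smul' (-1) r (mul (a : V) (J (cls p)))
        simpa using this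
      rw [h2, mul_smul', mul_assoc']
    rw [h1]
    exact PI_mulV (hr p hp) (a.2 p hp) i⟩
  map_zero' := by
    apply Subtype.ext
    change mul r 0 = 0
    ext i; fin_cases i <;> simp [mul]
  map_add' a b := by
    apply Subtype.ext
    change mul r (a + b : V) = mul r a + mul r b
    rw [mul_add']

/-- left multiplication by a basis vector -/
def Le (k : Fin 6) : AddMonoid.End G := L (e k) fun p hp i => by
  have : Fact p.Prime := ⟨hp⟩
  exact PI_e k i

lemma val_Le (k : Fin 6) : val (Le k) 0 = e k := by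
  change mul (e k) (e 0) = e k
  exact mul_one' _

lemma val_mul (φ ψ : AddMonoid.End G) : val (φ * ψ) 0 = mul (val φ 0) (val ψ 0) := by
  exact apply_eq φ (ψ ⟨e 0, e_mem 0⟩)


lemma val_zero : val (0 : AddMonoid.End G) 0 = 0 := rfl

lemma mem_center {φ : AddMonoid.End G} (h : ∀ w : V, mul w (val φ 0) = mul (val φ 0) w) :
    φ ∈ Subring.center (AddMonoid.End G) := by
  rw [Subring.mem_center_iff]
  intro ψ
  apply eq_of_val
  rw [val_mul, val_mul, h]

lemma central_of {r : V} (h1 : r 1 = 0) (h2 : r 2 = 0) (w : V) : mul w r = mul r w := by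
  ext i; fin_cases i <;> simp [mul, h1, h2] <;> ring

lemma ne_zero_of_val {φ : AddMonoid.End G} (h : val φ 0 ≠ 0) : φ ≠ 0 := by
  rintro rfl; exact h val_zero

lemma centrallyEssential : CentrallyEssential (AddMonoid.End G) := by
  intro φ hφ
  have hv : val φ 0 ≠ 0 := fun h => hφ (eq_of_val (by rw [h, val_zero]))
  set w := val φ 0 with hw
  have key2 : ∀ k : Fin 6, (∀ r, mul r (e k) = mul (e k) r) →
      mul w (e k) ≠ 0 → mul w (e k) 1 = 0 → mul w (e k) 2 = 0 →
      ∃ c d : AddMonoid.End G, c ∈ Subring.center (AddMonoid.End G) ∧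
        d ∈ Subring.center (AddMonoid.End G) ∧ c ≠ 0 ∧ d ≠ 0 ∧ φ * c = d := by
    intro k hk h0 h1 h2
    refine ⟨Le k, φ * Le k, mem_center ?_, mem_center ?_, ne_zero_of_val ?_, ne_zero_of_val ?_, rfl⟩
    · intro r; rw [val_Le]; exact hk r
    · intro r
      rw [val_mul, val_Le]
      exact central_of h1 h2 r
    · rw [val_Le]
      intro h
      rw [h] at h0
      apply h0
      ext i; fin_cases i <;> simp [mul]
    · rw [val_mul, val_Le]; exact h0
  have hc3 : ∀ r, mul r (e 3) = mul (e 3) r := central_of (by simp [e]) (by simp [e])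
  have hc4 : ∀ r, mul r (e 4) = mul (e 4) r := central_of (by simp [e]) (by simp [e])
  have hc0 : ∀ r, mul r (e 0) = mul (e 0) r := central_of (by simp [e]) (by simp [e])
  by_cases h0 : w 0 = 0
  · by_cases h12 : w 1 = 0 ∧ w 2 = 0
    · refine key2 0 hc0 ?_ ?_ ?_
      · rw [mul_one']; exact hv
      · rw [mul_one']; exact h12.1
      · rw [mul_one']; exact h12.2
    · refine key2 3 hc3 ?_ ?_ ?_
      · intro h
        apply h12
        have h4 := congrFun h 4
        have h5 := congrFun h 5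
        simp [mul, e] at h4 h5
        exact ⟨h4, h5⟩
      · simp [mul, e]
      · simp [mul, e]
  · refine key2 4 hc4 ?_ ?_ ?_
    · intro h
      apply h0
      have h4 := congrFun h 4
      simpa [mul, e] using h4
    · simp [mul, e]
    · simp [mul, e]

lemma not_commutative : ¬ ∀ f g : AddMonoid.End G, f * g = g * f := by
  intro h
  have h1 := congrArg (fun f : AddMonoid.End G => val f 0) (h (Le 1) (Le 2))
  change val (Le 1 * Le 2) 0 = val (Le 2 * Le 1) 0 at h1
  rw [val_mul, val_mul, val_Le, val_Le] at h1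
  have h2 := congrFun h1 4
  simp [mul, e] at h2

instance : Nontrivial G := ⟨⟨⟨e 0, e_mem 0⟩, 0, fun h => by
  have h1 : e 0 = (0 : V) := congrArg Subtype.val h
  have h2 := congrFun h1 0
  simp [e] at h2⟩⟩

/-- `w * w = n w` forces `w = 0` or `w = n`. -/
lemma idem_like {w : V} {n : ℚ} (hn : n ≠ 0) (h : mul w w = n • w) : w = 0 ∨ w = n • e 0 := by
  have h0 := congrFun h 0
  have h1 := congrFun h 1
  have h2 := congrFun h 2
  have h3 := congrFun h 3
  have h4 := congrFun h 4
  have h5 := congrFun h 5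
  simp [mul] at h0 h1 h2 h3 h4 h5
  rcases h0 with h0 | h0
  · right
    rw [h0] at h1 h2 h3 h4 h5
    have e1 : w 1 = 0 := by
      have : n * w 1 = 0 := by linarith
      simpa [hn] using this
    have e2 : w 2 = 0 := by
      have : n * w 2 = 0 := by linarith
      simpa [hn] using this
    have e3 : w 3 = 0 := by
      have : n * w 3 = 0 := by linarith
      simpa [hn] using this
    rw [e1, e2, e3] at h4
    rw [e2, e3] at h5
    have e4 : w 4 = 0 := by
      have : n * w 4 = 0 := by linarith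
      simpa [hn] using this
    have e5 : w 5 = 0 := by
      have : n * w 5 = 0 := by linarith
      simpa [hn] using this
    ext i
    fin_cases i <;> simp [e, h0, e1, e2, e3, e4, e5]
  · left
    rw [h0] at h1 h2 h3 h4 h5
    have e1 : w 1 = 0 := by
      have : n * w 1 = 0 := by linarith
      simpa [hn] using this
    have e2 : w 2 = 0 := by
      have : n * w 2 = 0 := by linarith
      simpa [hn] using this
    have e3 : w 3 = 0 := by
      have : n * w 3 = 0 := by linarith
      simpa [hn] using this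
    rw [e1, e2, e3] at h4
    rw [e2, e3] at h5
    have e4 : w 4 = 0 := by
      have : n * w 4 = 0 := by linarith
      simpa [hn] using this
    have e5 : w 5 = 0 := by
      have : n * w 5 = 0 := by linarith
      simpa [hn] using this
    ext i
    fin_cases i <;> simp [h0, e1, e2, e3, e4, e5]


/-- The projection attached to `n A ≤ B ⊕ C`. -/
lemma exists_proj {B C : AddSubgroup G} {n : ℕ} (hBC : B ⊓ C = ⊥)
    (h : ∀ a : G, n • a ∈ B ⊔ C) :
    ∃ φ : AddMonoid.End G, ∀ a : G, φ a ∈ B ∧ n • a - φ a ∈ C := by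
  have hex : ∀ a : G, ∃ b ∈ B, n • a - b ∈ C := by
    intro a
    obtain ⟨b, hb, c, hc, hbc⟩ := AddSubgroup.mem_sup.1 (h a)
    exact ⟨b, hb, by rw [← hbc]; simpa using hc⟩
  choose f hf1 hf2 using hex
  have huniq : ∀ a b : G, b ∈ B → n • a - b ∈ C → b = f a := by
    intro a b hb hc
    have h1 : b - f a ∈ B := B.sub_mem hb (hf1 a)
    have h2 : b - f a ∈ C := by
      have := C.sub_mem (hf2 a) hc
      simpa using this
    have h3 : b - f a ∈ B ⊓ C := ⟨h1, h2⟩
    rw [hBC, AddSubgroup.mem_bot] at h3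
    exact sub_eq_zero.1 h3
  refine ⟨AddMonoidHom.mk' f ?_, fun a => ⟨hf1 a, hf2 a⟩⟩
  intro a b
  symm
  apply huniq
  · exact B.add_mem (hf1 a) (hf1 b)
  · have := C.add_mem (hf2 a) (hf2 b)
    rw [smul_add]
    convert this using 1
    abel

lemma val_nsmul_one (n : ℕ) : val (n • (1 : AddMonoid.End G)) 0 = (n : ℚ) • e 0 := by
  change (((n • (1 : AddMonoid.End G)) ⟨e 0, e_mem 0⟩ : G) : V) = _
  rw [Nat.cast_smul_eq_nsmul]
  rfl

lemma nsmul_eq_zero' {n : ℕ} (hn : 0 < n) {a : G} (h : n • a = 0) : a = 0 := by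
  apply Subtype.ext
  have h1 : n • (a : V) = 0 := by
    rw [← AddSubgroup.coe_nsmul, h]; rfl
  rw [← Nat.cast_smul_eq_nsmul ℚ] at h1
  have h2 : (n : ℚ) ≠ 0 := by exact_mod_cast hn.ne'
  simpa [h2] using h1

lemma stronglyIndecomposable : StronglyIndecomposable G := by
  refine ⟨inferInstance, ?_⟩
  intro B C n hn hBC h
  obtain ⟨φ, hφ⟩ := exists_proj hBC h
  -- `φ b = n b` on `B`, `φ c = 0` on `C`
  have hB : ∀ b ∈ B, φ b = n • b := by
    intro b hb
    have h1 : n • b - φ b ∈ B := B.sub_mem (B.nsmul_mem hb n) (hφ b).1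
    have h2 : n • b - φ b ∈ B ⊓ C := ⟨h1, (hφ b).2⟩
    rw [hBC, AddSubgroup.mem_bot] at h2
    exact (sub_eq_zero.1 h2).symm
  have hC : ∀ c ∈ C, φ c = 0 := by
    intro c hc
    have h1 : φ c ∈ C := by
      have := C.sub_mem (C.nsmul_mem hc n) (hφ c).2
      simpa using this
    have h2 : φ c ∈ B ⊓ C := ⟨(hφ c).1, h1⟩
    rwa [hBC, AddSubgroup.mem_bot] at h2
  have hidem : φ * φ = n • φ := by
    ext a
    change ((φ (φ a) : G) : V) _ = ((n • φ a : G) : V) _
    rw [hB _ (hφ a).1]
  have hn' : (n : ℚ) ≠ 0 := by exact_mod_cast hn.ne'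
  have hw : mul (val φ 0) (val φ 0) = (n : ℚ) • val φ 0 := by
    rw [← val_mul, hidem, Nat.cast_smul_eq_nsmul]
    rfl
  rcases idem_like hn' hw with h0 | h0
  · left
    have hφ0 : φ = 0 := eq_of_val h0
    rw [eq_bot_iff]
    intro b hb
    rw [AddSubgroup.mem_bot]
    apply nsmul_eq_zero' hn
    rw [← hB b hb, hφ0]
    rfl
  · right
    have hφ0 : φ = n • (1 : AddMonoid.End G) := eq_of_val (by rw [h0, val_nsmul_one])
    rw [eq_bot_iff]
    intro c hc
    rw [AddSubgroup.mem_bot]
    apply nsmul_eq_zero' hn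
    have h1 := hC c hc
    rw [hφ0] at h1
    exact h1

lemma torsionFree : IsAddTorsionFree G := by
  refine ⟨fun n hn a b hab => ?_⟩
  have h1 : n • (a - b) = 0 := by
    rw [smul_sub]; exact sub_eq_zero.2 hab
  exact sub_eq_zero.1 (nsmul_eq_zero' (Nat.pos_of_ne_zero hn) h1)

lemma of_int_mem {a : V} (m : Fin 6 → ℤ) (hm : ∀ i, a i = m i) : a ∈ G := by
  intro p hp i
  have : Fact p.Prime := ⟨hp⟩
  apply PI_of_all
  intro i
  rw [hm i]
  exact PI.int _

lemma isLocalizedModule :
    IsLocalizedModule (nonZeroDivisors ℤ) (G.subtype.toIntLinearMap) where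
  map_units s := by
    have hs : (s : ℤ) ≠ 0 := nonZeroDivisors.ne_zero s.2
    have hs' : ((s : ℤ) : ℚ) ≠ 0 := by exact_mod_cast hs
    rw [Module.End.isUnit_iff]
    constructor
    · intro a b hab
      simp only [Module.algebraMap_end_apply] at hab
      rw [← Int.cast_smul_eq_zsmul ℚ, ← Int.cast_smul_eq_zsmul ℚ] at hab
      exact smul_right_injective V hs' hab
    · intro a
      refine ⟨((s : ℤ) : ℚ)⁻¹ • a, ?_⟩
      simp only [Module.algebraMap_end_apply]
      rw [← Int.cast_smul_eq_zsmul ℚ, smul_smul, mul_inv_cancel₀ hs', one_smul]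
  surj y := by
    obtain ⟨N, hN, m, hm⟩ := exists_den y
    refine ⟨⟨⟨fun i => (m i : ℚ), of_int_mem m fun i => rfl⟩,
      ⟨(N : ℤ), mem_nonZeroDivisors_of_ne_zero (by exact_mod_cast hN)⟩⟩, ?_⟩
    ext i
    change ((N : ℤ) • y) i = (m i : ℚ)
    rw [← hm i]
    simp
  exists_of_eq {a b} hab := by
    refine ⟨1, ?_⟩
    have : a = b := Subtype.ext hab
    rw [this]

lemma rank_eq : Module.rank ℚ (ℚ ⊗[ℤ] G) = 6 := by
  have := isLocalizedModule
  have h := IsLocalizedModule.isBaseChange (nonZeroDivisors ℤ) ℚ (G.subtype.toIntLinearMap)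
  rw [h.equiv.rank_eq]
  simp

/-- There is a strongly indecomposable torsion-free abelian group of rank six (so of rank less
than eight) whose endomorphism ring is centrally essential and not commutative. -/
theorem result : ∃ (A : Type) (_ : AddCommGroup A), IsAddTorsionFree A ∧
    Module.rank ℚ (ℚ ⊗[ℤ] A) = 6 ∧ StronglyIndecomposable A ∧
    CentrallyEssential (AddMonoid.End A) ∧ ¬ ∀ f g : AddMonoid.End A, f * g = g * f :=
  ⟨G, inferInstance, torsionFree, rank_eq, stronglyIndecomposable, centrallyEssential,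
    not_commutative⟩

end Pool.Agent.Results.MP_7bf690_al.RankSix
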